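import Mathlib
import Pool.Agent.Helper240.ZU.A1
import Pool.Agent.Helper240.ZU.A2
import Pool.Agent.Helper240.ZU.A3
import Pool.Agent.Y969.GP.Def

set_option autoImplicit false

/-!
Mean squares of the zeta function on the lines `Re s = x`, `1/2 ≤ x ≤ 2`, uniformly in `x`: the two missing analytic
inputs `S_SM` and `S_ZL` of project GP.
-/

namespace Pool.Agent.W2helper63.GP

open Complex Filter Topology MeasureTheory Set
open ZU (DN)
open Pool.Agent.Y969.GP (ff S_SM S_ZL)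

lemma sq3 (a b c : ℂ) : ‖a + b - c‖ ^ 2 ≤ 3 * (‖a‖ ^ 2 + ‖b‖ ^ 2 + ‖c‖ ^ 2) := by
  have h1 : ‖a + b - c‖ ≤ ‖a‖ + ‖b‖ + ‖c‖ :=
    (norm_sub_le _ _).trans (add_le_add_left (norm_add_le _ _) _)
  have h2 : ‖a + b - c‖ ^ 2 ≤ (‖a‖ + ‖b‖ + ‖c‖) ^ 2 := pow_le_pow_left₀ (norm_nonneg _) h1 2
  nlinarith [sq_nonneg (‖a‖ - ‖b‖), sq_nonneg (‖b‖ - ‖c‖), sq_nonneg (‖a‖ - ‖c‖)]

lemma pointwise (x T : ℝ) (L : ℕ) (hL : 1 ≤ L) (hx : 1 / 2 ≤ x) (hx2 : x ≤ 2) (hT : 1 ≤ T) (t : ℝ)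
    (ht : t ∈ Ioc (1 : ℝ) T) :
    ‖riemannZeta ((x : ℂ) + t * I)‖ ^ 2 ≤
      3 * Real.exp 1 * (Real.exp (-(t / T) ^ 2) *
        ‖∑ n ∈ Finset.Ioc 0 L, (n : ℂ) ^ (-((x : ℂ) + t * I))‖ ^ 2) +
      6 * L * (1 + t ^ 2)⁻¹ +
      15 * Real.exp 1 * T ^ 2 * (Real.exp (-(t / T) ^ 2) *
        ‖∫ u in Ioi (L : ℝ), ((Int.fract u : ℝ) : ℂ) * (u : ℂ) ^ (-((x : ℂ) + t * I) - 1)‖ ^ 2) := by
  obtain ⟨ht1, ht2⟩ := ht
  have hT0 : 0 < T := by linarith
  have ht0 : 0 < t := by linarith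
  set s : ℂ := (x : ℂ) + t * I with hs
  have hre : s.re = x := by simp [hs]
  have him : s.im = t := by simp [hs]
  have hs1 : s ≠ 1 := by
    intro h
    have := congrArg Complex.im h
    rw [him, Complex.one_im] at this
    linarith
  have hform := ZU.J_a1.zeta_formula L hL s (by rw [hre]; linarith) hs1
  set A : ℂ := ∑ n ∈ Finset.Ioc 0 L, (n : ℂ) ^ (-s) with hA
  set J : ℂ := ∫ u in Ioi (L : ℝ), ((Int.fract u : ℝ) : ℂ) * (u : ℂ) ^ (-s - 1) with hJ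
  have hDN : DN L s = A := by
    unfold DN
    rw [hA]
    congr 1
  have heq : riemannZeta s = A + (L : ℂ) ^ (1 - s) / (s - 1) - s * J := by
    rw [hform, hDN]
  have hE : 1 ≤ Real.exp 1 * Real.exp (-(t / T) ^ 2) := by
    rw [← Real.exp_add]
    apply Real.one_le_exp
    have h5 : t / T ≤ 1 := by rw [div_le_one hT0]; exact ht2
    have h6 : 0 ≤ t / T := by positivity
    nlinarith
  have hL0 : 0 < L := by omega
  have hLr : (1 : ℝ) ≤ L := by exact_mod_cast hL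
  have hb : ‖(L : ℂ) ^ (1 - s) / (s - 1)‖ ^ 2 ≤ 2 * L * (1 + t ^ 2)⁻¹ := by
    rw [norm_div, div_pow, Complex.norm_natCast_cpow_of_pos hL0]
    have h7 : (1 - s).re = 1 - x := by simp [hre]
    have h8 : ‖s - 1‖ ^ 2 = (x - 1) ^ 2 + t ^ 2 := by
      rw [← Complex.normSq_eq_norm_sq, Complex.normSq_apply]
      simp [hre, him]
      ring
    rw [h7, h8]
    have h9 : ((L : ℝ) ^ (1 - x)) ^ 2 ≤ L := by
      rw [← Real.rpow_natCast, ← Real.rpow_mul (by positivity)]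
      calc (L : ℝ) ^ ((1 - x) * ((2 : ℕ) : ℝ)) ≤ (L : ℝ) ^ (1 : ℝ) :=
            Real.rpow_le_rpow_of_exponent_le hLr (by push_cast; linarith)
        _ = L := Real.rpow_one _
    rw [div_le_iff₀ (by positivity)]
    have h10 : (1 : ℝ) ≤ 2 * (1 + t ^ 2)⁻¹ * ((x - 1) ^ 2 + t ^ 2) := by
      rw [mul_assoc, mul_comm ((1 + t ^ 2)⁻¹), ← mul_assoc, ← div_eq_mul_inv, le_div_iff₀ (by positivity)]
      nlinarith [sq_nonneg (x - 1)]
    calc ((L : ℝ) ^ (1 - x)) ^ 2 ≤ L * 1 := by rw [mul_one]; exact h9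
      _ ≤ L * (2 * (1 + t ^ 2)⁻¹ * ((x - 1) ^ 2 + t ^ 2)) := mul_le_mul_of_nonneg_left h10 (by positivity)
      _ = _ := by ring
  have hc : ‖s * J‖ ^ 2 ≤ 5 * T ^ 2 * ‖J‖ ^ 2 := by
    rw [norm_mul, mul_pow]
    have h8 : ‖s‖ ^ 2 = x ^ 2 + t ^ 2 := by
      rw [← Complex.normSq_eq_norm_sq, Complex.normSq_apply, hre, him]
      ring
    rw [h8]
    have h9 : x ^ 2 ≤ 4 := by nlinarith
    have h10 : t ^ 2 ≤ T ^ 2 := by nlinarith
    exact mul_le_mul_of_nonneg_right (by nlinarith) (by positivity)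
  have h20 := sq3 A ((L : ℂ) ^ (1 - s) / (s - 1)) (s * J)
  rw [← heq] at h20
  have hA2 : ‖A‖ ^ 2 ≤ Real.exp 1 * (Real.exp (-(t / T) ^ 2) * ‖A‖ ^ 2) := by
    rw [← mul_assoc]
    exact le_mul_of_one_le_left (by positivity) hE
  have hJ2 : ‖J‖ ^ 2 ≤ Real.exp 1 * (Real.exp (-(t / T) ^ 2) * ‖J‖ ^ 2) := by
    rw [← mul_assoc]
    exact le_mul_of_one_le_left (by positivity) hE
  have hc2 : ‖s * J‖ ^ 2 ≤ 5 * T ^ 2 * (Real.exp 1 * (Real.exp (-(t / T) ^ 2) * ‖J‖ ^ 2)) :=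
    hc.trans (mul_le_mul_of_nonneg_left hJ2 (by positivity))
  calc ‖riemannZeta s‖ ^ 2 ≤ _ := h20
    _ ≤ 3 * (Real.exp 1 * (Real.exp (-(t / T) ^ 2) * ‖A‖ ^ 2) + 2 * L * (1 + t ^ 2)⁻¹ +
        5 * T ^ 2 * (Real.exp 1 * (Real.exp (-(t / T) ^ 2) * ‖J‖ ^ 2))) := by
          linarith
    _ = _ := by ring

lemma sum_le (x : ℝ) (L : ℕ) (hx : 1 / 2 ≤ x) :
    ∑ n ∈ Finset.Ioc 0 L, (n : ℝ) ^ (-(2 * x)) ≤ 1 + Real.log L := by
  have h1 := harmonic_le_one_add_log L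
  have h2 : ∑ n ∈ Finset.Ioc 0 L, (n : ℝ) ^ (-(2 * x)) ≤ (harmonic L : ℝ) := by
    have e : Finset.Ioc 0 L = Finset.Icc 1 L := by
      ext a
      simp only [Finset.mem_Ioc, Finset.mem_Icc]
      omega
    rw [e, harmonic_eq_sum_Icc]
    push_cast
    apply Finset.sum_le_sum
    intro n hn
    rw [Finset.mem_Icc] at hn
    have hn1 : (1 : ℝ) ≤ n := by exact_mod_cast hn.1
    calc (n : ℝ) ^ (-(2 * x)) ≤ (n : ℝ) ^ (-1 : ℝ) := Real.rpow_le_rpow_of_exponent_le hn1 (by linarith)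
      _ = (n : ℝ)⁻¹ := Real.rpow_neg_one _
  linarith

/-- the general bound -/
theorem bound (x T : ℝ) (L : ℕ) (hL : 1 ≤ L) (hx : 1 / 2 ≤ x) (hx2 : x ≤ 2) (hT : 1 ≤ T) :
    ∫ t in (1 : ℝ)..T, ‖riemannZeta ((x : ℂ) + I * t)‖ ^ 2 ≤
      18 * T * (1 + Real.log L + (L : ℝ) ^ 2 * Real.exp (-(T ^ 2 / (4 * (L : ℝ) ^ 2)))) +
      19 * L + 260 * (T ^ 2 / L) := by
  have hT0 : 0 < T := by linarith
  have hx0 : 0 < x := by linarith
  have hLr : (1 : ℝ) ≤ L := by exact_mod_cast hL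
  obtain ⟨i1, b1⟩ := ZU.J_a3.gauss_mv x hx0.le 0 L T hT0
  obtain ⟨i2, b2⟩ := ZU.J_a2.planch x hx0 L hL T hT0
  have i3 : Integrable (fun t : ℝ => (1 + t ^ 2)⁻¹) := integrable_inv_one_add_sq
  have b3 : ∫ t : ℝ, (1 + t ^ 2)⁻¹ = Real.pi := integral_univ_inv_one_add_sq
  have j1 := i1.const_mul (3 * Real.exp 1)
  have j2 := i2.const_mul (15 * Real.exp 1 * T ^ 2)
  have j3 := i3.const_mul (6 * (L : ℝ))
  have jadd : Integrable (fun t : ℝ => 3 * Real.exp 1 * (Real.exp (-(t / T) ^ 2) *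
        ‖∑ n ∈ Finset.Ioc 0 L, (n : ℂ) ^ (-((x : ℂ) + t * I))‖ ^ 2) +
      6 * L * (1 + t ^ 2)⁻¹) := j1.add j3
  have jG := jadd.add j2
  have hcomm : (fun t : ℝ => ‖riemannZeta ((x : ℂ) + I * t)‖ ^ 2) =
      fun t : ℝ => ‖riemannZeta ((x : ℂ) + t * I)‖ ^ 2 := by
    funext t
    rw [mul_comm I]
  rw [hcomm, intervalIntegral.integral_of_le hT]
  have step1 : ∫ t in Ioc (1 : ℝ) T, ‖riemannZeta ((x : ℂ) + t * I)‖ ^ 2 ≤
      ∫ t in Ioc (1 : ℝ) T, (3 * Real.exp 1 * (Real.exp (-(t / T) ^ 2) *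
        ‖∑ n ∈ Finset.Ioc 0 L, (n : ℂ) ^ (-((x : ℂ) + t * I))‖ ^ 2) +
      6 * L * (1 + t ^ 2)⁻¹ +
      15 * Real.exp 1 * T ^ 2 * (Real.exp (-(t / T) ^ 2) *
        ‖∫ u in Ioi (L : ℝ), ((Int.fract u : ℝ) : ℂ) * (u : ℂ) ^ (-((x : ℂ) + t * I) - 1)‖ ^ 2)) := by
    refine integral_mono_of_nonneg (Eventually.of_forall fun t => by positivity)
      jG.integrableOn ?_
    rw [EventuallyLE, ae_restrict_iff' measurableSet_Ioc]
    exact Eventually.of_forall fun t ht => pointwise x T L hL hx hx2 hT t ht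
  have step2 : ∫ t in Ioc (1 : ℝ) T, (3 * Real.exp 1 * (Real.exp (-(t / T) ^ 2) *
        ‖∑ n ∈ Finset.Ioc 0 L, (n : ℂ) ^ (-((x : ℂ) + t * I))‖ ^ 2) +
      6 * L * (1 + t ^ 2)⁻¹ +
      15 * Real.exp 1 * T ^ 2 * (Real.exp (-(t / T) ^ 2) *
        ‖∫ u in Ioi (L : ℝ), ((Int.fract u : ℝ) : ℂ) * (u : ℂ) ^ (-((x : ℂ) + t * I) - 1)‖ ^ 2)) ≤
      ∫ t, (3 * Real.exp 1 * (Real.exp (-(t / T) ^ 2) *
        ‖∑ n ∈ Finset.Ioc 0 L, (n : ℂ) ^ (-((x : ℂ) + t * I))‖ ^ 2) +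
      6 * L * (1 + t ^ 2)⁻¹ +
      15 * Real.exp 1 * T ^ 2 * (Real.exp (-(t / T) ^ 2) *
        ‖∫ u in Ioi (L : ℝ), ((Int.fract u : ℝ) : ℂ) * (u : ℂ) ^ (-((x : ℂ) + t * I) - 1)‖ ^ 2)) := by
    refine setIntegral_le_integral jG (Eventually.of_forall fun t => ?_)
    simp only [Pi.zero_apply]
    positivity
  refine (step1.trans step2).trans ?_
  have e1 : ∫ t, (3 * Real.exp 1 * (Real.exp (-(t / T) ^ 2) *
        ‖∑ n ∈ Finset.Ioc 0 L, (n : ℂ) ^ (-((x : ℂ) + t * I))‖ ^ 2) +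
      6 * L * (1 + t ^ 2)⁻¹ +
      15 * Real.exp 1 * T ^ 2 * (Real.exp (-(t / T) ^ 2) *
        ‖∫ u in Ioi (L : ℝ), ((Int.fract u : ℝ) : ℂ) * (u : ℂ) ^ (-((x : ℂ) + t * I) - 1)‖ ^ 2)) =
      3 * Real.exp 1 * (∫ t, (Real.exp (-(t / T) ^ 2) *
        ‖∑ n ∈ Finset.Ioc 0 L, (n : ℂ) ^ (-((x : ℂ) + t * I))‖ ^ 2)) +
      6 * L * Real.pi +
      15 * Real.exp 1 * T ^ 2 * (∫ t, (Real.exp (-(t / T) ^ 2) *
        ‖∫ u in Ioi (L : ℝ), ((Int.fract u : ℝ) : ℂ) * (u : ℂ) ^ (-((x : ℂ) + t * I) - 1)‖ ^ 2)) := by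
    rw [integral_add jadd j2, integral_add j1 j3, integral_const_mul, integral_const_mul,
      integral_const_mul, b3]
  rw [e1]
  have k1 : (0:ℝ) ≤ 3 * Real.exp 1 := by positivity
  have k2 : (0:ℝ) ≤ 15 * Real.exp 1 * T ^ 2 := by positivity
  have m1 := mul_le_mul_of_nonneg_left b1 k1
  have m2 := mul_le_mul_of_nonneg_left b2 k2
  have he := Real.exp_one_lt_d9
  have hpi := Real.pi_lt_d2
  have hpi0 := Real.pi_pos
  have hsq : √Real.pi ≤ 2 := by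
    rw [Real.sqrt_le_left (by norm_num)]
    linarith
  have hsum := sum_le x L hx
  have hlog : 0 ≤ Real.log L := Real.log_nonneg hLr
  obtain ⟨E, hE⟩ : ∃ E, E = (L : ℝ) ^ 2 * Real.exp (-(T ^ 2 / (4 * (L : ℝ) ^ 2))) := ⟨_, rfl⟩
  have hE0 : 0 ≤ E := by rw [hE]; positivity
  rw [← hE] at m1 ⊢
  have hsum0 : 0 ≤ ∑ n ∈ Finset.Ioc 0 L, (n : ℝ) ^ (-(2 * x)) :=
    Finset.sum_nonneg fun n _ => Real.rpow_nonneg (Nat.cast_nonneg n) _
  have n1 : 3 * Real.exp 1 * (√Real.pi * T * (∑ n ∈ Finset.Ioc 0 L, (n : ℝ) ^ (-(2 * x)) + E)) ≤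
      18 * T * (1 + Real.log L + E) := by
    have a1 : 3 * Real.exp 1 * √Real.pi ≤ 18 := by nlinarith [Real.exp_pos 1, Real.sqrt_nonneg Real.pi]
    calc 3 * Real.exp 1 * (√Real.pi * T * (∑ n ∈ Finset.Ioc 0 L, (n : ℝ) ^ (-(2 * x)) + E)) =
        (3 * Real.exp 1 * √Real.pi) * (T * (∑ n ∈ Finset.Ioc 0 L, (n : ℝ) ^ (-(2 * x)) + E)) := by ring
      _ ≤ 18 * (T * (1 + Real.log L + E)) := by gcongr
      _ = _ := by ring
  have n2 : 6 * (L : ℝ) * Real.pi ≤ 19 * L := by nlinarith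
  have n3 : (L : ℝ) ^ (-(2 * x)) / (2 * x) ≤ 1 / L := by
    have a2 : (L : ℝ) ^ (-(2 * x)) ≤ 1 / L := by
      calc (L : ℝ) ^ (-(2 * x)) ≤ (L : ℝ) ^ (-1 : ℝ) := Real.rpow_le_rpow_of_exponent_le hLr (by linarith)
        _ = 1 / L := by rw [Real.rpow_neg_one, one_div]
    calc (L : ℝ) ^ (-(2 * x)) / (2 * x) ≤ (L : ℝ) ^ (-(2 * x)) / 1 :=
          div_le_div_of_nonneg_left (by positivity) one_pos (by linarith)
      _ ≤ 1 / L := by rw [div_one]; exact a2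
  have n4 : 15 * Real.exp 1 * T ^ 2 * (2 * Real.pi * ((L : ℝ) ^ (-(2 * x)) / (2 * x))) ≤ 260 * (T ^ 2 / L) := by
    have a3 : 15 * Real.exp 1 * (2 * Real.pi) ≤ 260 := by nlinarith [Real.exp_pos 1]
    calc 15 * Real.exp 1 * T ^ 2 * (2 * Real.pi * ((L : ℝ) ^ (-(2 * x)) / (2 * x))) =
        (15 * Real.exp 1 * (2 * Real.pi)) * (T ^ 2 * ((L : ℝ) ^ (-(2 * x)) / (2 * x))) := by ring
      _ ≤ 260 * (T ^ 2 * (1 / L)) := by gcongr
      _ = _ := by ring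
  linarith

lemma ff_cont : Continuous ff := by
  unfold ff
  refine Continuous.pow (Continuous.norm ?_) 2
  rw [continuous_iff_continuousAt]
  intro u
  have hne : (1 / 2 + I * u : ℂ) ≠ 1 := by
    intro h
    have := congrArg Complex.re h
    norm_num at this
  exact (differentiableAt_riemannZeta hne).continuousAt.comp (f := fun u : ℝ => (1 / 2 + I * u : ℂ))
    (Continuous.continuousAt (by fun_prop))

set_option maxHeartbeats 1000000 in
theorem t_SM : S_SM := by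
  obtain ⟨C1, hC1⟩ : ∃ C1, C1 = ∫ u in (0 : ℝ)..1, ff u := ⟨_, rfl⟩
  have hff : ∀ u, 0 ≤ ff u := fun u => by unfold ff; positivity
  have hC10 : 0 ≤ C1 := by
    rw [hC1]
    exact intervalIntegral.integral_nonneg zero_le_one fun u _ => hff u
  refine ⟨2 * C1 + (36 * (3 + 8 * Real.exp 16) * 2 + 152 + 1040), by positivity, fun T hT => ?_⟩
  obtain ⟨U, hU⟩ : ∃ U, U = 2 * T := ⟨_, rfl⟩
  have hU4 : 4 ≤ U := by rw [hU]; linarith
  have hU0 : 0 < U := by linarith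
  obtain ⟨l, hl⟩ : ∃ l, l = Real.log U := ⟨_, rfl⟩
  have hl1 : 1 ≤ l := by
    rw [hl, Real.le_log_iff_exp_le hU0]
    have := Real.exp_one_lt_d9
    linarith
  have hlU : l ≤ U := by
    rw [hl]
    exact (Real.log_le_sub_one_of_pos hU0).trans (by linarith)
  obtain ⟨L, hL⟩ : ∃ L : ℕ, L = ⌈U / l⌉₊ := ⟨_, rfl⟩
  have hUl : 1 ≤ U / l := by rw [le_div_iff₀ (by linarith), one_mul]; exact hlU
  have hL1 : U / l ≤ L := by rw [hL]; exact Nat.le_ceil _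
  have hL2 : (L : ℝ) ≤ 2 * (U / l) := by
    rw [hL]
    have := Nat.ceil_lt_add_one (show 0 ≤ U / l by positivity)
    linarith
  have hLn : 1 ≤ L := by
    have : (1 : ℝ) ≤ L := hUl.trans hL1
    exact_mod_cast this
  have hL0 : (0 : ℝ) < L := by exact_mod_cast hLn
  have hLU : (L : ℝ) ≤ 2 * U := by
    refine hL2.trans ?_
    have : U / l ≤ U := div_le_self hU0.le hl1
    linarith
  have hb := bound (1 / 2) U L hLn le_rfl (by norm_num) (by linarith)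
  have hsplit : ∫ u in (0 : ℝ)..(2 * T), ff u = C1 + ∫ u in (1 : ℝ)..U, ff u := by
    rw [hC1, hU]
    exact (intervalIntegral.integral_add_adjacent_intervals (ff_cont.intervalIntegrable _ _)
      (ff_cont.intervalIntegrable _ _)).symm
  have hint : ∫ u in (1 : ℝ)..U, ff u = ∫ t in (1 : ℝ)..U, ‖riemannZeta (((1 / 2 : ℝ) : ℂ) + I * t)‖ ^ 2 := by
    unfold ff
    push_cast
    rfl
  rw [hsplit, hint]
  -- the terms
  have t1 : Real.log L ≤ 2 * l := by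
    calc Real.log L ≤ Real.log (2 * U) := Real.log_le_log hL0 hLU
      _ = Real.log 2 + l := by rw [Real.log_mul (by norm_num) hU0.ne', hl]
      _ ≤ 2 * l := by
          have := Real.log_two_lt_d9
          linarith
  have t2 : (L : ℝ) ^ 2 * Real.exp (-(U ^ 2 / (4 * (L : ℝ) ^ 2))) ≤ 4 * Real.exp 16 := by
    have a1 : l ^ 2 / 16 ≤ U ^ 2 / (4 * (L : ℝ) ^ 2) := by
      rw [div_le_div_iff₀ (by norm_num) (by positivity)]
      have a2 : (L : ℝ) * l ≤ 2 * U := by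
        calc (L : ℝ) * l ≤ 2 * (U / l) * l := by gcongr
          _ = 2 * U := by field_simp
      have a3 : ((L : ℝ) * l) ^ 2 ≤ (2 * U) ^ 2 := pow_le_pow_left₀ (by positivity) a2 2
      nlinarith
    have a4 : (L : ℝ) ^ 2 ≤ 4 * Real.exp (2 * l) := by
      have a5 : Real.exp (2 * l) = U ^ 2 := by
        rw [hl, two_mul, Real.exp_add, Real.exp_log hU0]
        ring
      rw [a5]
      nlinarith
    calc (L : ℝ) ^ 2 * Real.exp (-(U ^ 2 / (4 * (L : ℝ) ^ 2))) ≤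
        4 * Real.exp (2 * l) * Real.exp (-(l ^ 2 / 16)) := by
          apply mul_le_mul a4 (Real.exp_le_exp.2 (by linarith)) (Real.exp_pos _).le (by positivity)
      _ = 4 * Real.exp (2 * l + -(l ^ 2 / 16)) := by rw [mul_assoc, ← Real.exp_add]
      _ ≤ 4 * Real.exp 16 := by
          have : 2 * l + -(l ^ 2 / 16) ≤ 16 := by nlinarith [sq_nonneg (l / 4 - 4)]
          linarith [Real.exp_le_exp.2 this]
  have t3 : U ^ 2 / L ≤ U * l := by
    rw [div_le_iff₀ hL0]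
    have : U ≤ l * L := by
      rw [div_le_iff₀ (by linarith)] at hL1
      linarith
    nlinarith
  have t4 : l ≤ 2 * Real.log T := by
    rw [hl, hU, Real.log_mul (by norm_num) (by linarith)]
    have := Real.log_le_log (by norm_num) hT
    linarith
  have hlogT : 0 < Real.log T := by linarith
  have hT0 : 0 < T := by linarith
  obtain ⟨E, hE⟩ : ∃ E, E = Real.exp 16 := ⟨_, rfl⟩
  rw [← hE] at t2
  rw [← hE]
  have hE0 : 0 < E := by rw [hE]; exact Real.exp_pos _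
  have s1 : 18 * U * (1 + Real.log L + (L : ℝ) ^ 2 * Real.exp (-(U ^ 2 / (4 * (L : ℝ) ^ 2)))) ≤
      18 * U * ((3 + 8 * E) * l) := by
    apply mul_le_mul_of_nonneg_left _ (by positivity)
    nlinarith
  have s2 : 18 * U * ((3 + 8 * E) * l) ≤ 36 * (3 + 8 * E) * 2 * (T * Real.log T) := by
    calc 18 * U * ((3 + 8 * E) * l) = 36 * (3 + 8 * E) * (T * l) := by rw [hU]; ring
      _ ≤ 36 * (3 + 8 * E) * (T * (2 * Real.log T)) := by gcongr
      _ = _ := by ring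
  have s3 : 19 * (L : ℝ) ≤ 152 * (T * Real.log T) := by
    have : (1 : ℝ) ≤ 2 * Real.log T := hl1.trans t4
    nlinarith
  have s4 : 260 * (U ^ 2 / L) ≤ 1040 * (T * Real.log T) := by
    have : U * l ≤ 4 * (T * Real.log T) := by
      rw [hU]
      nlinarith
    linarith
  have s5 : C1 ≤ 2 * C1 * (T * Real.log T) := by
    have h5 : (1 : ℝ) ≤ 2 * Real.log T := hl1.trans t4
    have h6 : (1 : ℝ) ≤ 2 * (T * Real.log T) := by nlinarith
    calc C1 ≤ C1 * (2 * (T * Real.log T)) := le_mul_of_one_le_right hC10 h6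
      _ = _ := by ring
  have e9 : (2 * C1 + (36 * (3 + 8 * E) * 2 + 152 + 1040)) * T * Real.log T =
      2 * C1 * (T * Real.log T) + (36 * (3 + 8 * E) * 2 * (T * Real.log T) + 152 * (T * Real.log T) +
        1040 * (T * Real.log T)) := by ring
  rw [e9]
  linarith

theorem t_ZL : S_ZL := by
  intro κ0 hκ0
  obtain ⟨κ, hκ⟩ : ∃ κ : ℝ, κ = min κ0 1 := ⟨_, rfl⟩
  have hκp : 0 < κ := by rw [hκ]; exact lt_min hκ0 one_pos
  have hκ1 : κ ≤ 1 := by rw [hκ]; exact min_le_right _ _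
  have hκκ : κ ≤ κ0 := by rw [hκ]; exact min_le_left _ _
  obtain ⟨m, hm⟩ : ∃ m : ℕ, m = ⌈2 / κ⌉₊ := ⟨_, rfl⟩
  have hm1 : 2 / κ ≤ m := by rw [hm]; exact Nat.le_ceil _
  obtain ⟨D, hD⟩ : ∃ D : ℝ, D = 4 * ((16 : ℝ) ^ m * m.factorial) := ⟨_, rfl⟩
  have hD0 : 0 < D := by rw [hD]; positivity
  refine ⟨18 * (2 + 1 / κ + D) + 38 + 260, by positivity, fun x T hx hx2 hT => ?_⟩
  have hT0 : 0 < T := by linarith
  obtain ⟨y, hy⟩ : ∃ y : ℝ, y = T ^ κ := ⟨_, rfl⟩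
  have hy1 : 1 ≤ y := by rw [hy]; exact Real.one_le_rpow hT hκp.le
  obtain ⟨q, hq⟩ : ∃ q : ℝ, q = T ^ (1 - κ / 2) := ⟨_, rfl⟩
  have hq1 : 1 ≤ q := by rw [hq]; exact Real.one_le_rpow hT (by linarith)
  obtain ⟨L, hL⟩ : ∃ L : ℕ, L = ⌈q⌉₊ := ⟨_, rfl⟩
  have hL1 : q ≤ L := by rw [hL]; exact Nat.le_ceil _
  have hL2 : (L : ℝ) ≤ 2 * q := by
    rw [hL]
    have := Nat.ceil_lt_add_one (show 0 ≤ q by linarith)
    linarith
  have hLn : 1 ≤ L := by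
    have : (1 : ℝ) ≤ L := hq1.trans hL1
    exact_mod_cast this
  have hL0 : (0 : ℝ) < L := by exact_mod_cast hLn
  have hqT : q ≤ T := by
    rw [hq]
    calc T ^ (1 - κ / 2) ≤ T ^ (1 : ℝ) := Real.rpow_le_rpow_of_exponent_le hT (by linarith)
      _ = T := Real.rpow_one _
  have hqy : q ^ 2 * y = T ^ 2 := by
    rw [hq, hy, ← Real.rpow_natCast, ← Real.rpow_natCast, ← Real.rpow_mul hT0.le, ← Real.rpow_add hT0]
    congr 1
    push_cast
    ring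
  have hb := bound x T L hLn hx hx2 hT
  refine hb.trans ?_
  -- the terms
  have hTy : T * y = T ^ (1 + κ) := by rw [hy, Real.rpow_add hT0, Real.rpow_one]
  have hfin : T * y ≤ T ^ (1 + κ0) := by
    rw [hTy]
    exact Real.rpow_le_rpow_of_exponent_le hT (by linarith)
  have hTTy : T ≤ T * y := by nlinarith
  have t1 : Real.log L ≤ 1 + y / κ := by
    calc Real.log L ≤ Real.log (2 * T) := Real.log_le_log hL0 (by linarith)
      _ = Real.log 2 + Real.log T := by rw [Real.log_mul (by norm_num) hT0.ne']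
      _ ≤ 1 + y / κ := by
          have h1 := Real.log_two_lt_d9
          have h2 := Real.log_le_rpow_div hT0.le hκp
          rw [← hy] at h2
          linarith
  have t2 : (L : ℝ) ^ 2 * Real.exp (-(T ^ 2 / (4 * (L : ℝ) ^ 2))) ≤ D := by
    have a1 : y / 16 ≤ T ^ 2 / (4 * (L : ℝ) ^ 2) := by
      rw [div_le_div_iff₀ (by norm_num) (by positivity)]
      have a3 : (L : ℝ) ^ 2 ≤ (2 * q) ^ 2 := pow_le_pow_left₀ (by positivity) hL2 2
      calc y * (4 * (L : ℝ) ^ 2) ≤ y * (4 * (2 * q) ^ 2) := by gcongr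
        _ = 16 * (q ^ 2 * y) := by ring
        _ = T ^ 2 * 16 := by rw [hqy]; ring
    have a4 : (L : ℝ) ^ 2 ≤ 4 * y ^ m := by
      have a5 : T ^ 2 ≤ y ^ m := by
        rw [hy, ← Real.rpow_natCast, ← Real.rpow_natCast, ← Real.rpow_mul hT0.le]
        apply Real.rpow_le_rpow_of_exponent_le hT
        push_cast
        rw [div_le_iff₀ hκp] at hm1
        linarith
      have a6 : (L : ℝ) ^ 2 ≤ (2 * T) ^ 2 := pow_le_pow_left₀ (by positivity) (by linarith) 2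
      nlinarith
    have a7 : (y / 16) ^ m / m.factorial ≤ Real.exp (y / 16) := Real.pow_div_factorial_le_exp _ (by positivity) _
    have a8 : y ^ m ≤ (16 : ℝ) ^ m * m.factorial * Real.exp (y / 16) := by
      rw [div_le_iff₀ (by positivity), div_pow, div_le_iff₀ (by positivity)] at a7
      linarith
    calc (L : ℝ) ^ 2 * Real.exp (-(T ^ 2 / (4 * (L : ℝ) ^ 2))) ≤
        4 * ((16 : ℝ) ^ m * m.factorial * Real.exp (y / 16)) * Real.exp (-(y / 16)) := by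
          apply mul_le_mul (a4.trans (by linarith)) (Real.exp_le_exp.2 (by linarith)) (Real.exp_pos _).le (by positivity)
      _ = D * (Real.exp (y / 16) * Real.exp (-(y / 16))) := by rw [hD]; ring
      _ = D := by rw [← Real.exp_add, add_neg_cancel, Real.exp_zero, mul_one]
  have t3 : T ^ 2 / L ≤ T * y := by
    rw [div_le_iff₀ hL0]
    calc T ^ 2 = q * (q * y) := by rw [← hqy]; ring
      _ ≤ L * (T * y) := by gcongr
      _ = _ := by ring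
  have s1 : 18 * T * (1 + Real.log L + (L : ℝ) ^ 2 * Real.exp (-(T ^ 2 / (4 * (L : ℝ) ^ 2)))) ≤
      18 * (2 + 1 / κ + D) * (T * y) := by
    have h1 : 1 + Real.log L + (L : ℝ) ^ 2 * Real.exp (-(T ^ 2 / (4 * (L : ℝ) ^ 2))) ≤ (2 + 1 / κ + D) * y := by
      have h2 : y / κ = 1 / κ * y := by ring
      have h3 : D ≤ D * y := le_mul_of_one_le_right hD0.le hy1
      have h4 : (2 + 1 / κ + D) * y = 2 * y + 1 / κ * y + D * y := by ring
      rw [h4, ← h2]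
      linarith
    calc 18 * T * (1 + Real.log L + (L : ℝ) ^ 2 * Real.exp (-(T ^ 2 / (4 * (L : ℝ) ^ 2)))) ≤
        18 * T * ((2 + 1 / κ + D) * y) := by gcongr
      _ = _ := by ring
  have s2 : 19 * (L : ℝ) ≤ 38 * (T * y) := by linarith
  have hK : 0 < 18 * (2 + 1 / κ + D) + 38 + 260 := by positivity
  calc 18 * T * (1 + Real.log L + (L : ℝ) ^ 2 * Real.exp (-(T ^ 2 / (4 * (L : ℝ) ^ 2)))) + 19 * L + 260 * (T ^ 2 / L) ≤
      (18 * (2 + 1 / κ + D) + 38 + 260) * (T * y) := by linarith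
    _ ≤ (18 * (2 + 1 / κ + D) + 38 + 260) * T ^ (1 + κ0) := by gcongr

end Pool.Agent.W2helper63.GP
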