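import Pool.Agent.Y587.GP.V
import Pool.Agent.Y587.GP.Chi
import Pool.Agent.Y891.GP.AFE
import Pool.Agent.Y379.GP.Sp
import Pool.Agent.Y379.GP.Off
import Pool.Agent.Y125.GP.LSW
import Pool.Agent.Y125.GP.VAR
import Pool.Agent.Y545.GP.CR
import Pool.Agent.Y434.GP.RPL
import Pool.Agent.Y155.GP.D1
import Pool.Agent.Y22.GP.Tel
import Pool.Agent.Y79.GP.ZP
import Pool.Agent.Y321.GP.FD
import Pool.Agent.Y319.GP.FB
import Pool.Agent.Y185.GP.HOL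
import Pool.Agent.Y258.GP.MB
import Pool.Agent.Y180.GP.Mel
import Pool.Agent.Y969.GP.BR5
import Pool.Agent.Y969.GP.Fin2
import Pool.Agent.Y969.GP.Fin3
import Pool.Agent.Y961.GP.NS
import Pool.Agent.Y232.GP.E1
import Pool.Agent.Y86.GP.CT
import Pool.Agent.W2helper63.GP.ZL

set_option autoImplicit false

/-! Project GP: all parts together. -/

namespace Pool.Agent.W2helper63.GP

open Pool.Agent.Y969.GP

theorem v : S_V := Pool.Agent.Y587.GP.t_V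
theorem sp : S_SP := Pool.Agent.Y379.GP.t_SP
theorem fd : S_FD := Pool.Agent.Y321.GP.t_FD
theorem hol : S_HOL := Pool.Agent.Y185.GP.t_HOL (Pool.Agent.Y319.GP.t_FHD fd) (Pool.Agent.Y319.GP.t_FHC fd)
theorem hol2 : S_HOL2 := Pool.Agent.Y185.GP.t_HOL2 (Pool.Agent.Y319.GP.t_FHD fd) (Pool.Agent.Y319.GP.t_FHC fd)
theorem mb : S_MB := Pool.Agent.Y258.GPMB.t_MB (Pool.Agent.Y319.GP.t_FB fd) t_ZL Pool.Agent.Y79.GP.t_ZP
theorem mel : S_MEL := Pool.Agent.Y180.GP.t_MEL v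
theorem tel2 : S_TEL2 := Pool.Agent.Y22.GP.t_TEL2 Pool.Agent.Y155.GP.t_D2
theorem tel : S_TEL := Pool.Agent.Y22.GP.t_TEL Pool.Agent.Y155.GP.t_D1
theorem brw : S_BRW := t_BRW tel tel2 hol hol2 mb mel
theorem rrw : S_RRW := t_RRW tel2 hol hol2 mb
theorem afe : S_AFE := Pool.Agent.Y891.GP.t_AFE v Pool.Agent.Y587.GP.Chi.t_CHI
theorem rpl : S_RPL := Pool.Agent.Y434.GP.t_RPL afe t_SM
theorem var : S_VAR := Pool.Agent.Y125.GP.t_VAR sp (Pool.Agent.Y125.GP.t_LSW sp) Pool.Agent.Y379.GP.t_OFF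
  (Pool.Agent.Y545.GP.t_CR v)

theorem main : S_MAIN := t_MAIN var rpl brw rrw Pool.Agent.Y961.GP.t_NS (Pool.Agent.Y232.GP.t_E1 t_SM)
  (Pool.Agent.Y86.GP.t_CT v)

end Pool.Agent.W2helper63.GP
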